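import Mathlib

/-! Telescoping over the levels and the splitting bounds of the level step (model-free). -/

namespace Pool.Agent.P.MP_f981b0_an.IS24

open Finset Filter Topology

/-- Cauchy-Schwarz with bounds on the two square sums. -/
theorem cs_le {ι : Type*} (s : Finset ι) (f g : ι → ℝ) {a b : ℝ} (ha : 0 ≤ a) (hb : 0 ≤ b)
    (hf : ∑ i ∈ s, f i ^ 2 ≤ a ^ 2) (hg : ∑ i ∈ s, g i ^ 2 ≤ b ^ 2) :
    ∑ i ∈ s, f i * g i ≤ a * b := by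
  have h := Finset.sum_mul_sq_le_sq_mul_sq s f g
  have h0 : 0 ≤ ∑ i ∈ s, g i ^ 2 := Finset.sum_nonneg fun i _ => sq_nonneg _
  have h2 : (∑ i ∈ s, f i * g i) ^ 2 ≤ (a * b) ^ 2 := by
    calc _ ≤ _ := h
      _ ≤ a ^ 2 * b ^ 2 := mul_le_mul hf hg h0 (sq_nonneg _)
      _ = (a * b) ^ 2 := by ring
  exact (abs_le_of_sq_le_sq' h2 (mul_nonneg ha hb)).2

/-- Telescoping: steps bounded by `C eps n * eps2 n + gam n`, limit zero. -/
theorem tele {E : Type*} [SeminormedAddCommGroup E] (T : ℕ → E) (eps eps2 gam : ℕ → ℝ)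
    (N : ℕ) {C a b g : ℝ} (hC : 0 ≤ C) (ha : 0 ≤ a) (hb : 0 ≤ b)
    (hstep : ∀ n, N ≤ n → ‖T n - T (n + 1)‖ ≤ C * (eps n * eps2 n) + gam n)
    (hlim : Tendsto T atTop (𝓝 0))
    (he : ∀ M, ∑ n ∈ range M, eps (N + n) ^ 2 ≤ a ^ 2)
    (he2 : ∀ M, ∑ n ∈ range M, eps2 (N + n) ^ 2 ≤ b ^ 2)
    (hg : ∀ M, ∑ n ∈ range M, gam (N + n) ≤ g) :
    ‖T N‖ ≤ C * (a * b) + g := by
  have key : ∀ M, ‖T N - T (N + M)‖ ≤
      ∑ n ∈ range M, (C * (eps (N + n) * eps2 (N + n)) + gam (N + n)) := by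
    intro M
    induction M with
    | zero => simp
    | succ M ih =>
      rw [sum_range_succ]
      have h1 := hstep (N + M) (Nat.le_add_right _ _)
      have h2 : T N - T (N + (M + 1)) = (T N - T (N + M)) + (T (N + M) - T (N + M + 1)) := by
        rw [← add_assoc N M 1]; abel
      rw [h2]
      exact (norm_add_le _ _).trans (add_le_add ih h1)
  have key2 : ∀ M, ‖T N - T (N + M)‖ ≤ C * (a * b) + g := by
    intro M
    refine (key M).trans ?_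
    rw [sum_add_distrib, ← mul_sum]
    exact add_le_add (mul_le_mul_of_nonneg_left
      (cs_le _ (fun n => eps (N + n)) (fun n => eps2 (N + n)) ha hb (he M) (he2 M)) hC) (hg M)
  have hl : Tendsto (fun M => ‖T N - T (N + M)‖) atTop (𝓝 ‖T N - 0‖) := by
    refine Tendsto.norm (tendsto_const_nhds.sub ?_)
    have : Tendsto (fun M => N + M) atTop atTop := (tendsto_add_atTop_nat N).congr fun M => add_comm _ _
    exact hlim.comp this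
  rw [sub_zero] at hl
  exact le_of_tendsto' hl key2

/-- Geometric errors. -/
theorem sum_half_le (N M : ℕ) (gam : ℕ → ℝ) (hg : ∀ n, N ≤ n → gam n ≤ (1 / 2) ^ n) :
    ∑ n ∈ range M, gam (N + n) ≤ 2 * (1 / 2) ^ N := by
  calc _ ≤ ∑ n ∈ range M, ((1 : ℝ) / 2) ^ (N + n) :=
        sum_le_sum fun n _ => hg _ (Nat.le_add_right _ _)
    _ = (1 / 2) ^ N * ∑ n ∈ range M, ((1 : ℝ) / 2) ^ n := by
        rw [mul_sum]; exact sum_congr rfl fun n _ => pow_add _ _ _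
    _ ≤ (1 / 2) ^ N * 2 := by
        gcongr
        exact sum_geometric_two_le M
    _ = _ := by ring

/-- Telescoping with `gam n ≤ 2⁻ⁿ`. -/
theorem tele_half {E : Type*} [SeminormedAddCommGroup E] (T : ℕ → E) (eps eps2 gam : ℕ → ℝ)
    (N : ℕ) {C a b : ℝ} (hC : 0 ≤ C) (ha : 0 ≤ a) (hb : 0 ≤ b)
    (hstep : ∀ n, N ≤ n → ‖T n - T (n + 1)‖ ≤ C * (eps n * eps2 n) + gam n)
    (hlim : Tendsto T atTop (𝓝 0))
    (he : ∀ M, ∑ n ∈ range M, eps (N + n) ^ 2 ≤ a ^ 2)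
    (he2 : ∀ M, ∑ n ∈ range M, eps2 (N + n) ^ 2 ≤ b ^ 2)
    (hg : ∀ n, N ≤ n → gam n ≤ (1 / 2) ^ n) :
    ‖T N‖ ≤ C * (a * b) + 2 * (1 / 2) ^ N :=
  tele T eps eps2 gam N hC ha hb hstep hlim he he2 fun M => sum_half_le N M gam hg

/-- Numeric form of the split: `z k = x k + ∑ l, lam k l * w k l`. -/
theorem split_num {ι κ : Type*} (s : Finset ι) (t : Finset κ) (x : ι → ℂ) (lam w : ι → κ → ℂ)
    (p n : ι → ℝ) (A : κ → ℝ) {r P e β : ℝ} (hr : 0 ≤ r) (hP : 0 ≤ P) (he : 0 ≤ e) (hβ : 0 ≤ β)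
    (hA : ∀ l ∈ t, 0 ≤ A l)
    (hx : ∀ k ∈ s, ‖x k‖ ≤ r * (p k * n k))
    (hlam : ∀ k ∈ s, ∀ l ∈ t, ‖lam k l‖ ≤ A l * n k)
    (hp : ∑ k ∈ s, p k ^ 2 ≤ P ^ 2) (hn : ∑ k ∈ s, n k ^ 2 ≤ β ^ 2)
    (hw : ∀ l ∈ t, ∑ k ∈ s, ‖w k l‖ ^ 2 ≤ e ^ 2) :
    ‖∑ k ∈ s, (x k + ∑ l ∈ t, lam k l * w k l)‖ ≤ (r * P + (∑ l ∈ t, A l) * e) * β := by
  rw [sum_add_distrib, sum_comm]
  refine (norm_add_le _ _).trans ?_
  have h1 : ‖∑ k ∈ s, x k‖ ≤ r * P * β := by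
    calc _ ≤ ∑ k ∈ s, ‖x k‖ := norm_sum_le _ _
      _ ≤ ∑ k ∈ s, r * (p k * n k) := sum_le_sum hx
      _ = r * ∑ k ∈ s, p k * n k := by rw [mul_sum]
      _ ≤ r * (P * β) := mul_le_mul_of_nonneg_left (cs_le s p n hP hβ hp hn) hr
      _ = _ := by ring
  have h2 : ‖∑ l ∈ t, ∑ k ∈ s, lam k l * w k l‖ ≤ (∑ l ∈ t, A l) * e * β := by
    rw [sum_mul, sum_mul]
    refine (norm_sum_le _ _).trans (sum_le_sum fun l hl => ?_)
    calc _ ≤ ∑ k ∈ s, ‖lam k l * w k l‖ := norm_sum_le _ _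
      _ ≤ ∑ k ∈ s, A l * (‖w k l‖ * n k) := sum_le_sum fun k hk => by
          rw [norm_mul]
          calc _ ≤ A l * n k * ‖w k l‖ :=
                mul_le_mul_of_nonneg_right (hlam k hk l hl) (norm_nonneg _)
            _ = _ := by ring
      _ = A l * ∑ k ∈ s, ‖w k l‖ * n k := by rw [mul_sum]
      _ ≤ A l * (e * β) := mul_le_mul_of_nonneg_left
          (cs_le s (fun k => ‖w k l‖) n he hβ (hw l hl) hn) (hA l hl)
      _ = _ := by ring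
  calc _ ≤ r * P * β + (∑ l ∈ t, A l) * e * β := add_le_add h1 h2
    _ = _ := by ring

/-- The split `V f = R f + ∑ l, lam l f • v l` applied under a family of functionals. -/
theorem nat_split {F : Type*} [NormedAddCommGroup F] [NormedSpace ℂ F] {ι κ : Type*}
    (s : Finset ι) (t : Finset κ) (φ : ι → F →L[ℂ] ℂ) (V R : F →L[ℂ] F)
    (lam : κ → F →L[ℂ] ℂ) (v : κ → F) (f : ι → F) {r P e β : ℝ}
    (hP : 0 ≤ P) (he : 0 ≤ e) (hβ : 0 ≤ β) (hR : ‖R‖ ≤ r)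
    (hsplit : ∀ g, V g = R g + ∑ l ∈ t, lam l g • v l)
    (hφ : ∑ k ∈ s, ‖φ k‖ ^ 2 ≤ P ^ 2)
    (hv : ∀ l ∈ t, ∑ k ∈ s, ‖φ k (v l)‖ ^ 2 ≤ e ^ 2)
    (hf : ∑ k ∈ s, ‖f k‖ ^ 2 ≤ β ^ 2) :
    ‖∑ k ∈ s, φ k (V (f k))‖ ≤ (r * P + (∑ l ∈ t, ‖lam l‖) * e) * β := by
  have hr : 0 ≤ r := (norm_nonneg _).trans hR
  have h := split_num s t (fun k => φ k (R (f k))) (fun k l => lam l (f k))
    (fun k l => φ k (v l)) (fun k => ‖φ k‖) (fun k => ‖f k‖) (fun l => ‖lam l‖) hr hP he hβ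
    (fun l _ => norm_nonneg _)
    (fun k _ => by
      calc ‖φ k (R (f k))‖ ≤ ‖φ k‖ * ‖R (f k)‖ := (φ k).le_opNorm _
        _ ≤ ‖φ k‖ * (r * ‖f k‖) := by
            gcongr
            exact (R.le_opNorm _).trans (by gcongr)
        _ = _ := by ring)
    (fun k _ l _ => (lam l).le_opNorm _) hφ hf hv
  refine le_trans (le_of_eq ?_) h
  congr 1
  refine sum_congr rfl fun k _ => ?_
  rw [hsplit, map_add, map_sum]
  simp [smul_eq_mul]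

/-- One functional: `|y (V f)| ≤ (r ‖y‖ + ∑ ‖lam l‖ * e) ‖f‖`. -/
theorem one_split {F : Type*} [NormedAddCommGroup F] [NormedSpace ℂ F] {κ : Type*}
    (t : Finset κ) (y : F →L[ℂ] ℂ) (V R : F →L[ℂ] F)
    (lam : κ → F →L[ℂ] ℂ) (v : κ → F) (f : F) {r P e : ℝ}
    (he : 0 ≤ e) (hR : ‖R‖ ≤ r)
    (hsplit : ∀ g, V g = R g + ∑ l ∈ t, lam l g • v l)
    (hy : ‖y‖ ≤ P) (hv : ∀ l ∈ t, ‖y (v l)‖ ≤ e) :
    ‖y (V f)‖ ≤ (r * P + (∑ l ∈ t, ‖lam l‖) * e) * ‖f‖ := by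
  have h := nat_split ({()} : Finset Unit) t (fun _ => y) V R lam v (fun _ => f)
    ((norm_nonneg _).trans hy) he (norm_nonneg f) hR hsplit
    (by simpa using pow_le_pow_left₀ (norm_nonneg _) hy 2)
    (fun l hl => by simpa using pow_le_pow_left₀ (norm_nonneg _) (hv l hl) 2) (by simp)
  simpa using h

end Pool.Agent.P.MP_f981b0_an.IS24
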